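import Pool.Agent.Y674.TR.Stm2

/-!
# Project TR, part 2, job IRRD: irreducibility of `φ - x δ` for large `x`

Adaptation of the modules `Y739.TR.Sz` (helper739), `Y532.TR.One` (helper532) and
`Y248.TR.Irr` (helper248), with the square of `ψ` replaced by `δ`.
-/

set_option autoImplicit false

namespace Pool.Agent.Y809.TR

open Polynomial NumberField Pool.Agent.Y674.TR

theorem ev_eq (f : ℤ[X]) (s : ℂ) {n : ℕ} (hn : f.natDegree < n) :
    ev f s = ∑ i ∈ Finset.range n, (f.coeff i : ℂ) * s ^ i := by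
  unfold ev
  rw [eval_eq_sum_range' (lt_of_le_of_lt natDegree_map_le hn)]
  refine Finset.sum_congr rfl fun i _ => ?_
  rw [coeff_map]
  rfl

theorem low (f : ℤ[X]) (H : ℕ) (hc : ∀ i, |f.coeff i| ≤ (H : ℤ)) (s : ℂ) (m : ℕ) :
    ‖∑ i ∈ Finset.range m, (f.coeff i : ℂ) * s ^ i‖ ≤ ∑ i ∈ Finset.range m, (H : ℝ) * ‖s‖ ^ i := by
  refine norm_sum_le_of_le _ fun i _ => ?_
  rw [norm_mul, norm_pow, Complex.norm_intCast]
  have h1 : |((f.coeff i : ℤ) : ℝ)| ≤ (H : ℝ) := by exact_mod_cast hc i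
  exact mul_le_mul_of_nonneg_right h1 (by positivity)

theorem geo {H R : ℝ} (hH : 1 ≤ H) (hR : 4 * H ≤ R) (m : ℕ) :
    ∑ i ∈ Finset.range m, H * R ^ i ≤ R ^ m / 3 := by
  induction m with
  | zero => simp
  | succ m ih =>
    rw [Finset.sum_range_succ, pow_succ]
    have h4 : 4 ≤ R := by linarith
    have h0 : 0 ≤ R ^ m := by positivity
    have h1 : H * R ^ m ≤ R / 4 * R ^ m := mul_le_mul_of_nonneg_right (by linarith) h0
    have h2 : R ^ m * 4 ≤ R ^ m * R := mul_le_mul_of_nonneg_left h4 h0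
    linarith

theorem ev_G (φ δ : ℤ[X]) (x : ℤ) (z : ℂ) :
    ev (φ - C x * δ) z = ev φ z - (x : ℂ) * ev δ z := by
  unfold ev
  simp [Polynomial.map_sub, Polynomial.map_mul]

/-- the size of the roots -/
theorem szD {e : ℕ} {φ δ : ℤ[X]} {H : ℕ} (hD : DatD (e + 1) φ δ H) :
    (∀ s : ℂ, 4 * (H : ℝ) ≤ ‖s‖ → ‖s‖ ^ e / 2 ≤ ‖ev δ s‖ ∧ ‖ev δ s‖ ≤ 2 * H * ‖s‖ ^ e ∧
      ‖s‖ ^ (e + 1) / 2 ≤ ‖ev φ s‖ ∧ ‖ev φ s‖ ≤ 3 / 2 * ‖s‖ ^ (e + 1)) ∧
    ∀ (x : ℤ) (s : ℂ), ev (φ - C x * δ) s = 0 →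
    (‖s‖ < 4 * H ∧ ‖ev δ s‖ * |(x : ℝ)| ≤ (e + 2) * H * (4 * H : ℝ) ^ (e + 1)) ∨
    (4 * (H : ℝ) ≤ ‖s‖ ∧ |(x : ℝ)| ≤ 6 * ‖s‖) := by
  have hH : (1 : ℝ) ≤ H := by exact_mod_cast hD.one
  have hδd : δ.natDegree = e := hD.degδ
  have hout : ∀ s : ℂ, 4 * (H : ℝ) ≤ ‖s‖ → ‖s‖ ^ e / 2 ≤ ‖ev δ s‖ ∧ ‖ev δ s‖ ≤ 2 * H * ‖s‖ ^ e ∧
      ‖s‖ ^ (e + 1) / 2 ≤ ‖ev φ s‖ ∧ ‖ev φ s‖ ≤ 3 / 2 * ‖s‖ ^ (e + 1) := by
    intro s hs
    have ha0 : δ.coeff e ≠ 0 := by
      have h1 := leadingCoeff_ne_zero.2 hD.ne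
      rwa [leadingCoeff, hδd] at h1
    have ha1 : (1 : ℝ) ≤ |((δ.coeff e : ℤ) : ℝ)| := by
      exact_mod_cast Int.one_le_abs ha0
    have ha2 : |((δ.coeff e : ℤ) : ℝ)| ≤ (H : ℝ) := by exact_mod_cast hD.cδ e
    have e1 : ev δ s = (∑ i ∈ Finset.range e, (δ.coeff i : ℂ) * s ^ i) + (δ.coeff e : ℂ) * s ^ e := by
      rw [ev_eq δ s (n := e + 1) (by rw [hδd]; omega), Finset.sum_range_succ]
    have l1 := (low δ H hD.cδ s e).trans (geo hH hs e)
    have e2 : ev φ s = (∑ i ∈ Finset.range (e + 1), (φ.coeff i : ℂ) * s ^ i) +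
        s ^ (e + 1) := by
      rw [ev_eq φ s (n := e + 1 + 1) (by rw [hD.deg]; omega), Finset.sum_range_succ]
      have h1 : φ.coeff (e + 1) = 1 := by
        have := hD.mon.coeff_natDegree
        rwa [hD.deg] at this
      rw [h1, Int.cast_one, one_mul]
    have l2 := (low φ H hD.cφ s (e + 1)).trans (geo hH hs (e + 1))
    have n1 : ‖(δ.coeff e : ℂ) * s ^ e‖ = |((δ.coeff e : ℤ) : ℝ)| * ‖s‖ ^ e := by
      rw [norm_mul, norm_pow, Complex.norm_intCast]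
    have n2 : ‖s ^ (e + 1)‖ = ‖s‖ ^ (e + 1) := norm_pow _ _
    have hp1 : 0 ≤ ‖s‖ ^ e := by positivity
    have hp2 : 0 ≤ ‖s‖ ^ (e + 1) := by positivity
    have m1 : 1 * ‖s‖ ^ e ≤ |((δ.coeff e : ℤ) : ℝ)| * ‖s‖ ^ e :=
      mul_le_mul_of_nonneg_right ha1 hp1
    have m2 : |((δ.coeff e : ℤ) : ℝ)| * ‖s‖ ^ e ≤ H * ‖s‖ ^ e :=
      mul_le_mul_of_nonneg_right ha2 hp1
    have m3 : 1 * ‖s‖ ^ e ≤ H * ‖s‖ ^ e := mul_le_mul_of_nonneg_right hH hp1
    refine ⟨?_, ?_, ?_, ?_⟩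
    · have h1 : ‖(δ.coeff e : ℂ) * s ^ e‖ ≤ ‖ev δ s‖ +
          ‖∑ i ∈ Finset.range e, (δ.coeff i : ℂ) * s ^ i‖ := by
        have : (δ.coeff e : ℂ) * s ^ e = ev δ s - ∑ i ∈ Finset.range e, (δ.coeff i : ℂ) * s ^ i := by
          rw [e1]; ring
        rw [this]
        exact norm_sub_le _ _
      rw [n1] at h1
      linarith
    · rw [e1]
      have h1 := norm_add_le (∑ i ∈ Finset.range e, (δ.coeff i : ℂ) * s ^ i) ((δ.coeff e : ℂ) * s ^ e)
      rw [n1] at h1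
      have h2 : 2 * (H : ℝ) * ‖s‖ ^ e = 2 * (H * ‖s‖ ^ e) := by ring
      rw [h2]
      linarith
    · have h1 : ‖s ^ (e + 1)‖ ≤ ‖ev φ s‖ +
          ‖∑ i ∈ Finset.range (e + 1), (φ.coeff i : ℂ) * s ^ i‖ := by
        have : s ^ (e + 1) = ev φ s -
            ∑ i ∈ Finset.range (e + 1), (φ.coeff i : ℂ) * s ^ i := by
          rw [e2]; ring
        rw [this]
        exact norm_sub_le _ _
      rw [n2] at h1
      linarith
    · rw [e2]
      have h1 := norm_add_le (∑ i ∈ Finset.range (e + 1), (φ.coeff i : ℂ) * s ^ i)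
        (s ^ (e + 1))
      rw [n2] at h1
      linarith
  refine ⟨hout, fun x s hx => ?_⟩
  have hx1 : ev φ s = (x : ℂ) * ev δ s := by
    rw [ev_G] at hx
    exact sub_eq_zero.1 hx
  have hx2 : ‖ev φ s‖ = |(x : ℝ)| * ‖ev δ s‖ := by
    rw [hx1, norm_mul, Complex.norm_intCast]
  rcases lt_or_ge ‖s‖ (4 * (H : ℝ)) with hs | hs
  · left
    refine ⟨hs, ?_⟩
    rw [mul_comm, ← hx2, ev_eq φ s (n := e + 2) (by rw [hD.deg]; omega)]
    refine (low φ H hD.cφ s (e + 2)).trans ?_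
    have h1 : ∀ i ∈ Finset.range (e + 2), (H : ℝ) * ‖s‖ ^ i ≤ H * (4 * H : ℝ) ^ (e + 1) := by
      intro i hi
      rw [Finset.mem_range] at hi
      refine mul_le_mul_of_nonneg_left ?_ (by positivity)
      calc ‖s‖ ^ i ≤ (4 * H : ℝ) ^ i := pow_le_pow_left₀ (norm_nonneg _) hs.le i
        _ ≤ (4 * H : ℝ) ^ (e + 1) := pow_le_pow_right₀ (by linarith) (by omega)
    refine (Finset.sum_le_sum h1).trans ?_
    rw [Finset.sum_const, Finset.card_range, nsmul_eq_mul]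
    push_cast
    apply le_of_eq
    ring
  · right
    obtain ⟨k1, k2, k3, k4⟩ := hout s hs
    have hs0 : 0 < ‖s‖ := by linarith
    have hp : 0 < ‖s‖ ^ e := by positivity
    have hpe : ‖s‖ ^ (e + 1) = ‖s‖ ^ e * ‖s‖ := by ring
    refine ⟨hs, ?_⟩
    have h1 : |(x : ℝ)| * (‖s‖ ^ e / 2) ≤ 3 / 2 * ‖s‖ ^ (e + 1) := by
      refine le_trans ?_ k4
      rw [hx2]
      exact mul_le_mul_of_nonneg_left k1 (abs_nonneg _)
    rw [hpe] at h1
    have h2 : ‖s‖ ^ e * |(x : ℝ)| ≤ ‖s‖ ^ e * (6 * ‖s‖) := by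
      have e3 : |(x : ℝ)| * (‖s‖ ^ e / 2) = ‖s‖ ^ e * |(x : ℝ)| / 2 := by ring
      rw [e3] at h1
      have e4 : 0 ≤ ‖s‖ ^ e * ‖s‖ := by positivity
      linarith
    exact le_of_mul_le_mul_left h2 hp

lemma natDegree_G {e : ℕ} {φ δ : ℤ[X]} {H : ℕ} (hD : DatD (e + 1) φ δ H) (x : ℤ) :
    (φ - C x * δ).natDegree = e + 1 := by
  have hδd : δ.natDegree = e := hD.degδ
  have h1 : (C x * δ).natDegree ≤ e := by
    refine (natDegree_C_mul_le _ _).trans ?_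
    rw [hδd]
  rw [natDegree_sub_eq_left_of_natDegree_lt (by rw [hD.deg]; omega), hD.deg]

/-- exactly one large root -/
theorem oneD {e : ℕ} {φ δ : ℤ[X]} {H : ℕ} (hD : DatD (e + 1) φ δ H) (x : ℤ)
    (hx : ((300 * 12 ^ (e + 2) : ℕ) : ℝ) * (H : ℝ) ^ (e + 2) ≤ |(x : ℝ)|)
    (ι : Type) [Fintype ι] (s : ι → ℂ)
    (hs : (φ - C x * δ).map (Int.castRingHom ℂ) = ∏ i, (X - C (s i))) :
    ∃ i₀, 4 * (H : ℝ) ≤ ‖s i₀‖ ∧ ∀ i, i ≠ i₀ → ‖s i‖ < 4 * H := by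
  classical
  obtain ⟨hsz1, hsz2⟩ := szD hD
  have hH : (1 : ℝ) ≤ H := by exact_mod_cast hD.one
  have hH0 : (0 : ℝ) < H := by linarith
  obtain ⟨z, hz⟩ : ∃ z : ℂ, z = ((8 * (H : ℝ) : ℝ) : ℂ) := ⟨_, rfl⟩
  have hzn : ‖z‖ = 8 * (H : ℝ) := by
    rw [hz, Complex.norm_real, Real.norm_eq_abs, abs_of_pos (by positivity)]
  have hcard : Fintype.card ι = e + 1 := by
    have h1 : ((φ - C x * δ).map (Int.castRingHom ℂ)).natDegree = e + 1 := by
      rw [natDegree_map_eq_of_injective (RingHom.injective_int (Int.castRingHom ℂ)),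
        natDegree_G hD x]
    rw [hs, natDegree_finsetProd_X_sub_C_eq_card] at h1
    simpa using h1
  have hroot : ∀ i, ev (φ - C x * δ) (s i) = 0 := by
    intro i
    unfold ev
    rw [hs, eval_prod]
    apply Finset.prod_eq_zero (Finset.mem_univ i)
    simp
  have hprod : ‖ev (φ - C x * δ) z‖ = ∏ i, ‖z - s i‖ := by
    unfold ev
    rw [hs, eval_prod, norm_prod]
    simp
  obtain ⟨p1, p2, p3, p4⟩ := hsz1 z (by rw [hzn]; linarith)
  rw [hzn] at p1 p2 p3 p4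
  obtain ⟨X0, hX0⟩ : ∃ X0 : ℝ, X0 = |(x : ℝ)| := ⟨_, rfl⟩
  have hxn : ‖(x : ℂ)‖ = X0 := by
    rw [hX0]
    have : (x : ℂ) = ((x : ℝ) : ℂ) := by push_cast; rfl
    rw [this, Complex.norm_real, Real.norm_eq_abs]
  rw [← hX0] at hx
  push_cast at hx
  obtain ⟨B, hB⟩ : ∃ B : ℝ, B = (12 * (H : ℝ)) ^ (e + 2) := ⟨_, rfl⟩
  have hxB : 300 * B ≤ X0 := by
    rw [hB, mul_pow]
    linarith
  have h12 : (12 : ℝ) ≤ 12 * (H : ℝ) := by linarith
  have hB12 : 12 * (H : ℝ) ≤ B := by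
    rw [hB]
    exact le_self_pow₀ (by linarith) (by omega)
  have hBn : (12 * (H : ℝ)) ^ (e + 1) ≤ B := by
    rw [hB]
    exact pow_le_pow_right₀ (by linarith) (by omega)
  have h8B : (8 * (H : ℝ)) ^ (e + 2) ≤ B := by
    rw [hB]
    exact pow_le_pow_left₀ (by positivity) (by linarith) _
  have h8n : (8 * (H : ℝ)) ^ (e + 1) ≤ (12 * (H : ℝ)) ^ (e + 1) :=
    pow_le_pow_left₀ (by positivity) (by linarith) _
  have h82e : 1 ≤ (8 * (H : ℝ)) ^ e := one_le_pow₀ (by linarith)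
  have hX1 : 1 ≤ X0 := by linarith
  have hlarge : ∀ i, ¬ ‖s i‖ < 4 * (H : ℝ) → X0 / 6 ≤ ‖s i‖ := by
    intro i hi
    rcases hsz2 x (s i) (hroot i) with h1 | h1
    · exact absurd h1.1 hi
    · rw [← hX0] at h1
      linarith [h1.2]
  -- existence
  have hex : ∃ i₀, 4 * (H : ℝ) ≤ ‖s i₀‖ := by
    by_contra hcon
    push Not at hcon
    have h1 : ∏ i, ‖z - s i‖ ≤ (12 * (H : ℝ)) ^ (e + 1) := by
      calc ∏ i, ‖z - s i‖ ≤ ∏ _i : ι, (12 * (H : ℝ)) := by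
            refine Finset.prod_le_prod (fun i _ => norm_nonneg _) fun i _ => ?_
            have := norm_sub_le z (s i)
            have := hcon i
            linarith
        _ = (12 * (H : ℝ)) ^ (e + 1) := by
            rw [Finset.prod_const, Finset.card_univ, hcard]
    rw [← hprod, ev_G] at h1
    have h2 : ‖(x : ℂ) * ev δ z‖ ≤ ‖ev φ z - (x : ℂ) * ev δ z‖ + ‖ev φ z‖ := by
      calc ‖(x : ℂ) * ev δ z‖ = ‖ev φ z - (ev φ z - (x : ℂ) * ev δ z)‖ := by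
            congr 1
            ring
        _ ≤ ‖ev φ z‖ + ‖ev φ z - (x : ℂ) * ev δ z‖ := norm_sub_le _ _
        _ = _ := add_comm _ _
    rw [norm_mul, hxn] at h2
    have h3 : X0 * (1 / 4) ≤ X0 * ‖ev δ z‖ := by
      apply mul_le_mul_of_nonneg_left _ (by linarith)
      linarith
    linarith
  obtain ⟨i₀, hi₀⟩ := hex
  refine ⟨i₀, hi₀, fun i₁ hne => ?_⟩
  by_contra hi₁
  have hs0 := hlarge i₀ (not_lt.2 hi₀)
  have hs1 := hlarge i₁ hi₁
  have hfac : ∀ i, 1 ≤ ‖z - s i‖ := by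
    intro i
    by_cases hi : ‖s i‖ < 4 * (H : ℝ)
    · have := norm_sub_norm_le z (s i)
      rw [hzn] at this
      linarith
    · have h1 := hlarge i hi
      have h2 := norm_sub_norm_le (s i) z
      rw [hzn, norm_sub_rev] at h2
      linarith
  have hbig : ∀ i, X0 / 6 ≤ ‖s i‖ → X0 / 12 ≤ ‖z - s i‖ := by
    intro i hi
    have h2 := norm_sub_norm_le (s i) z
    rw [hzn, norm_sub_rev] at h2
    linarith
  have hlow : X0 / 12 * (X0 / 12) ≤ ∏ i, ‖z - s i‖ := by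
    rw [← Finset.mul_prod_erase _ _ (Finset.mem_univ i₀),
      ← Finset.mul_prod_erase _ _ (Finset.mem_erase.2 ⟨hne, Finset.mem_univ i₁⟩)]
    have h1 : 1 ≤ ∏ i ∈ (Finset.univ.erase i₀).erase i₁, ‖z - s i‖ := by
      have h2 : ∏ _i ∈ (Finset.univ.erase i₀).erase i₁, (1 : ℝ) ≤
          ∏ i ∈ (Finset.univ.erase i₀).erase i₁, ‖z - s i‖ :=
        Finset.prod_le_prod (fun i _ => zero_le_one) fun i _ => hfac i
      rwa [Finset.prod_const_one] at h2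
    have b0 := hbig i₀ hs0
    have b1 := hbig i₁ hs1
    have hp : 0 ≤ X0 / 12 := by linarith
    calc X0 / 12 * (X0 / 12) ≤ ‖z - s i₀‖ * ‖z - s i₁‖ := mul_le_mul b0 b1 hp (norm_nonneg _)
      _ = ‖z - s i₀‖ * (‖z - s i₁‖ * 1) := by ring
      _ ≤ _ := by gcongr
  rw [← hprod, ev_G] at hlow
  have hup : ‖ev φ z - (x : ℂ) * ev δ z‖ ≤ 2 * B * X0 := by
    refine (norm_sub_le _ _).trans ?_
    rw [norm_mul, hxn]
    have h1 : ‖ev φ z‖ ≤ B := by
      have h2 : 3 / 2 * (8 * (H : ℝ)) ^ (e + 1) ≤ (8 * (H : ℝ)) ^ (e + 2) := by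
        have h3 : (8 * (H : ℝ)) ^ (e + 2) = (8 * (H : ℝ)) * (8 * (H : ℝ)) ^ (e + 1) := by
          ring
        rw [h3]
        apply mul_le_mul_of_nonneg_right _ (by positivity)
        linarith
      linarith
    have h2 : ‖ev δ z‖ ≤ B := by
      refine p2.trans (le_trans ?_ h8B)
      have h3 : (8 * (H : ℝ)) ^ (e + 2) = 64 * (H : ℝ) ^ 2 * (8 * (H : ℝ)) ^ e := by
        ring
      rw [h3]
      apply mul_le_mul_of_nonneg_right _ (by positivity)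
      nlinarith
    have hB0 : 0 ≤ B := by linarith
    calc ‖ev φ z‖ + X0 * ‖ev δ z‖ ≤ B * X0 + X0 * B := by
          apply add_le_add
          · calc ‖ev φ z‖ ≤ B * 1 := by linarith
              _ ≤ B * X0 := by gcongr
          · gcongr
      _ = 2 * B * X0 := by ring
  have hfin := hlow.trans hup
  nlinarith

/-- a monic complex polynomial is a product indexed by a finite type -/
theorem split (p : ℂ[X]) (hp : p.Monic) : ∃ (ι : Type) (_ : Fintype ι) (s : ι → ℂ),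
    p = ∏ i, (X - C (s i)) := by
  classical
  refine ⟨p.roots.ToType, inferInstance, fun x => (x : ℂ), ?_⟩
  have h1 := (IsAlgClosed.splits p).eq_prod_roots_of_monic hp
  conv_lhs => rw [h1]
  rw [Finset.prod, Multiset.map_univ p.roots (fun a => X - C a)]

theorem root_mem {ι : Type} [Fintype ι] (s : ι → ℂ) (z : ℂ)
    (h : (∏ i, (X - C (s i))).eval z = 0) : ∃ i, z = s i := by
  rw [eval_prod, Finset.prod_eq_zero_iff] at h
  obtain ⟨i, -, hi⟩ := h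
  refine ⟨i, ?_⟩
  rw [eval_sub, eval_X, eval_C] at hi
  exact sub_eq_zero.1 hi

theorem monic_G {e : ℕ} {φ δ : ℤ[X]} {H : ℕ} (hD : DatD (e + 1) φ δ H) (x : ℤ) :
    (φ - C x * δ).Monic := by
  refine hD.mon.sub_of_left ?_
  have hδd : δ.natDegree = e := hD.degδ
  have h1 : φ.degree = ((e + 1 : ℕ) : WithBot ℕ) := by
    rw [degree_eq_natDegree hD.mon.ne_zero, hD.deg]
  rw [h1]
  have h2 : (C x * δ).natDegree ≤ e := by
    refine (natDegree_C_mul_le _ _).trans ?_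
    rw [hδd]
  refine (degree_le_natDegree.trans (WithBot.coe_le_coe.2 h2)).trans_lt ?_
  exact WithBot.coe_lt_coe.2 (Nat.lt_succ_self _)

/-- the norm argument -/
theorem small {e : ℕ} {φ δ : ℤ[X]} {H : ℕ} (hD : DatD (e + 1) φ δ H) (x : ℤ) (p : ℚ[X])
    (hpd : p ∣ (φ - C x * δ).map (Int.castRingHom ℚ)) (hpu : ¬ IsUnit p)
    (hsm : ∀ z : ℂ, (p.map (algebraMap ℚ ℂ)).eval z = 0 → ‖ev δ z‖ < 1) : False := by
  obtain ⟨p0, hp0m, hp0, hp0p⟩ := exists_monic_irreducible_factor p hpu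
  have : Fact (Irreducible p0) := ⟨hp0⟩
  have : FiniteDimensional ℚ (AdjoinRoot p0) := (AdjoinRoot.powerBasis hp0.ne_zero).finite
  have : CharZero (AdjoinRoot p0) := charZero_of_injective_algebraMap
    (algebraMap ℚ (AdjoinRoot p0)).injective
  set K := AdjoinRoot p0 with hK
  set t : K := AdjoinRoot.root p0 with ht
  have ht0 : aeval t p0 = 0 := by
    rw [ht, aeval_def]
    exact AdjoinRoot.eval₂_root p0
  have htG : aeval t ((φ - C x * δ).map (Int.castRingHom ℚ)) = 0 := by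
    obtain ⟨r, hr⟩ := hp0p.trans hpd
    rw [hr, map_mul, ht0, zero_mul]
  have htF : aeval t (φ - C x * δ) = 0 := by
    have := htG
    rwa [show (Int.castRingHom ℚ) = algebraMap ℤ ℚ from rfl, aeval_map_algebraMap] at this
  have hint : IsIntegral ℤ t := ⟨φ - C x * δ, monic_G hD x, htF⟩
  have hrel : aeval t φ = (x : K) * aeval t δ := by
    have h1 := htF
    rw [map_sub, map_mul, aeval_C, sub_eq_zero] at h1
    simpa using h1
  set v : K := aeval t δ with hv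
  have hvint : IsIntegral ℤ v := by
    rw [hv]
    exact adjoin_le_integralClosure hint (aeval_mem_adjoin_singleton ℤ t)
  have hv0 : v ≠ 0 := by
    intro h0
    rw [h0] at hrel
    obtain ⟨a, b, hab⟩ := hD.cop
    have h1 := congrArg (aeval t) hab
    rw [map_add, map_mul, map_mul, map_one, show (Int.castRingHom ℚ) = algebraMap ℤ ℚ from rfl,
      aeval_map_algebraMap, aeval_map_algebraMap, ← hv, h0, hrel] at h1
    simp at h1
  have hN0 : Algebra.norm ℚ v ≠ 0 := Algebra.norm_ne_zero_iff.2 hv0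
  have hNint : IsIntegral ℤ (Algebra.norm ℚ v) := Algebra.isIntegral_norm ℚ hvint
  obtain ⟨y, hy⟩ := IsIntegrallyClosed.isIntegral_iff.1 hNint
  have hy0 : y ≠ 0 := by
    rintro rfl
    rw [map_zero] at hy
    exact hN0 hy.symm
  have hprod := Algebra.norm_eq_prod_embeddings ℚ ℂ v
  have hσ : ∀ σ : K →ₐ[ℚ] ℂ, ‖σ v‖ < 1 := by
    intro σ
    have h1 : σ v = ev δ (σ t) := by
      rw [hv, ev, show (Int.castRingHom ℂ) = algebraMap ℤ ℂ from rfl, eval_map_algebraMap]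
      exact (aeval_algHom_apply (σ.restrictScalars ℤ) t δ).symm
    rw [h1]
    apply hsm
    have h2 : (p.map (algebraMap ℚ ℂ)).eval (σ t) = σ (aeval t p) := by
      rw [eval_map_algebraMap]
      exact aeval_algHom_apply σ t p
    rw [h2]
    obtain ⟨r, hr⟩ := hp0p
    rw [hr, map_mul, ht0, zero_mul, map_zero]
  have hσ0 : ∀ σ : K →ₐ[ℚ] ℂ, 0 < ‖σ v‖ := by
    intro σ
    rw [norm_pos_iff]
    exact (map_ne_zero σ).2 hv0
  have : Nonempty (K →ₐ[ℚ] ℂ) := ⟨IsAlgClosed.lift⟩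
  have hlt : ∏ σ : K →ₐ[ℚ] ℂ, ‖σ v‖ < 1 := by
    have := Finset.prod_lt_prod_of_nonempty (s := (Finset.univ : Finset (K →ₐ[ℚ] ℂ)))
      (f := fun σ => ‖σ v‖) (g := fun _ => 1) (fun σ _ => hσ0 σ) (fun σ _ => hσ σ)
      Finset.univ_nonempty
    simpa using this
  rw [← norm_prod, ← hprod, ← hy] at hlt
  have h3 : ‖(algebraMap ℚ ℂ) ((algebraMap ℤ ℚ) y)‖ = |(y : ℝ)| := by
    simp
  rw [h3] at hlt
  have h4 : (1 : ℝ) ≤ |(y : ℝ)| := by
    have : 1 ≤ |y| := Int.one_le_abs hy0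
    exact_mod_cast this
  linarith

theorem irrd : IRRD := by
  intro n hn
  obtain ⟨e, rfl⟩ : ∃ e, n = e + 1 := ⟨n - 1, by omega⟩
  refine ⟨e + 2, 300 * 12 ^ (e + 2) + (e + 2) * 4 ^ (e + 1) + 1, ?_⟩
  intro φ δ H hD x hx
  have hH1 : (1 : ℝ) ≤ H := by exact_mod_cast hD.one
  have hHe : (1 : ℝ) ≤ (H : ℝ) ^ (e + 2) := one_le_pow₀ hH1
  have hx1 : ((300 * 12 ^ (e + 2) : ℕ) : ℝ) * (H : ℝ) ^ (e + 2) ≤ |(x : ℝ)| := by
    refine le_trans ?_ hx
    apply mul_le_mul_of_nonneg_right _ (by positivity)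
    exact_mod_cast (by omega : 300 * 12 ^ (e + 2) ≤ 300 * 12 ^ (e + 2) + (e + 2) * 4 ^ (e + 1) + 1)
  have hx2 : (e + 2) * H * (4 * H : ℝ) ^ (e + 1) < |(x : ℝ)| := by
    refine lt_of_lt_of_le ?_ hx
    push_cast
    have h3 : (e + 2) * H * (4 * H : ℝ) ^ (e + 1)
        = ((e + 2) * 4 ^ (e + 1)) * (H : ℝ) ^ (e + 2) := by
      rw [mul_pow]
      ring
    rw [h3]
    have h7 : (0 : ℝ) ≤ (300 * 12 ^ (e + 2)) * (H : ℝ) ^ (e + 2) := by positivity
    have h9 : ((300 : ℝ) * 12 ^ (e + 2) + (e + 2) * 4 ^ (e + 1) + 1) * (H : ℝ) ^ (e + 2) =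
        (300 * 12 ^ (e + 2)) * (H : ℝ) ^ (e + 2) + ((e + 2) * 4 ^ (e + 1)) * (H : ℝ) ^ (e + 2) +
          (H : ℝ) ^ (e + 2) := by ring
    rw [h9]
    linarith
  have hGm : ((φ - C x * δ).map (Int.castRingHom ℚ)).Monic := (monic_G hD x).map _
  have hdeg : (φ - C x * δ).natDegree = e + 1 := natDegree_G hD x
  have hmapC : ((φ - C x * δ).map (Int.castRingHom ℚ)).map (algebraMap ℚ ℂ)
      = (φ - C x * δ).map (Int.castRingHom ℂ) := by
    rw [Polynomial.map_map,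
      RingHom.ext_int ((algebraMap ℚ ℂ).comp (Int.castRingHom ℚ)) (Int.castRingHom ℂ)]
  -- the values of `δ` at the small roots
  have hval : ∀ z : ℂ, ((φ - C x * δ).map (Int.castRingHom ℂ)).eval z = 0 → ‖z‖ < 4 * H →
      ‖ev δ z‖ < 1 := by
    intro z hz hz4
    rcases (szD hD).2 x z hz with h | h
    · by_contra hge
      push Not at hge
      have h4 : |(x : ℝ)| ≤ ‖ev δ z‖ * |(x : ℝ)| := by
        nlinarith [abs_nonneg (x : ℝ)]
      linarith [h.2]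
    · exact absurd h.1 (not_le.2 hz4)
  rw [hGm.irreducible_iff_natDegree]
  refine ⟨?_, ?_⟩
  · intro h
    have := congrArg natDegree h
    rw [natDegree_one, (monic_G hD x).natDegree_map, hdeg] at this
    omega
  · intro p q hp hq hpq
    by_contra hcon
    push Not at hcon
    obtain ⟨hp0, hq0⟩ := hcon
    obtain ⟨ι, fι, s, hs⟩ := split (p.map (algebraMap ℚ ℂ)) (hp.map _)
    obtain ⟨κ, fκ, r, hr⟩ := split (q.map (algebraMap ℚ ℂ)) (hq.map _)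
    have hFC : (φ - C x * δ).map (Int.castRingHom ℂ) =
        ∏ i : ι ⊕ κ, (X - C (Sum.elim s r i)) := by
      rw [Fintype.prod_sum_type, ← hmapC, ← hpq, Polynomial.map_mul, hs, hr]
      simp
    obtain ⟨i0, hi0, hsmall⟩ := oneD hD x hx1 (ι ⊕ κ) (Sum.elim s r) hFC
    rcases i0 with i0 | i0
    · refine small hD x q ⟨p, by rw [← hpq, mul_comm]⟩
        (not_isUnit_of_natDegree_pos q (Nat.pos_of_ne_zero hq0)) fun z hz => ?_
      apply hval
      · rw [← hmapC, ← hpq, Polynomial.map_mul, eval_mul, hz, mul_zero]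
      · rw [hr] at hz
        obtain ⟨j, rfl⟩ := root_mem r z hz
        exact hsmall (Sum.inr j) (by simp)
    · refine small hD x p ⟨q, hpq.symm⟩
        (not_isUnit_of_natDegree_pos p (Nat.pos_of_ne_zero hp0)) fun z hz => ?_
      apply hval
      · rw [← hmapC, ← hpq, Polynomial.map_mul, eval_mul, hz, zero_mul]
      · rw [hs] at hz
        obtain ⟨j, rfl⟩ := root_mem s z hz
        exact hsmall (Sum.inl j) (by simp)

end Pool.Agent.Y809.TR
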